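import Mathlib
import Pool.Agent.N266.TI.Stm

/-!
Project TI of helper266, leaf TENTi: tentacles (helper519).
-/

set_option autoImplicit false

namespace Pool.Agent.N519.TI

open MeasureTheory Metric Set
open scoped ENNReal Pointwise ContDiff
open Pool.Agent.N266.TI

/-- a connected set together with the neighbourhoods of segments -/
theorem conn {n : ℕ} (D : Set (E n)) (hD : IsConnected D) (x₀ : E n) (hx : x₀ ∈ D)
    (F : Finset (E n)) (s : ℝ) (hs : 0 < s) :
    IsConnected (D ∪ thickening s (Pool.Agent.N266.TI.star x₀ F)) := by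
  refine ⟨⟨x₀, Or.inl hx⟩, ?_⟩
  have h2 : thickening s (Pool.Agent.N266.TI.star x₀ F) =
      ⋃ p ∈ (F : Set (E n)), thickening s (segment ℝ x₀ p) :=
    thickening_biUnion s (fun p => segment ℝ x₀ p) (F : Set (E n))
  have h1 : D ∪ thickening s (Pool.Agent.N266.TI.star x₀ F) =
      ⋃₀ (insert D ((fun p => thickening s (segment ℝ x₀ p)) '' (F : Set (E n)))) := by
    rw [sUnion_insert, sUnion_image, h2]
  rw [h1]
  refine isPreconnected_sUnion x₀ _ ?_ ?_
  · intro A hA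
    rcases hA with rfl | ⟨p, _, rfl⟩
    · exact hx
    · exact self_subset_thickening hs _ (left_mem_segment ℝ x₀ p)
  · intro A hA
    rcases hA with rfl | ⟨p, _, rfl⟩
    · exact hD.isPreconnected
    · exact ((convex_segment x₀ p).thickening s).isPreconnected

/-- the Dirichlet integral over a part -/
theorem part_le {n : ℕ} (φ : E n → ℝ) (h1 : ContDiff ℝ 1 φ) (h2 : HasCompactSupport φ)
    (Ω : Set (E n)) : ∫ x in Ω, ‖gr φ x‖ ^ 2 ≤ En φ := by
  have hc : Continuous (fun x => gr φ x) := by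
    unfold gr
    refine (PiLp.continuous_toLp 2 _).comp (continuous_pi fun i => ?_)
    exact (h1.continuous_fderiv one_ne_zero).clm_apply continuous_const
  have hc2 : Continuous (fun x => ‖gr φ x‖ ^ 2) := (hc.norm).pow 2
  have hs : HasCompactSupport (fun x => ‖gr φ x‖ ^ 2) := by
    refine HasCompactSupport.intro (h2.fderiv (𝕜 := ℝ)) fun x hx => ?_
    have h3 : fderiv ℝ φ x = 0 := by
      by_contra h
      exact hx (subset_tsupport _ h)
    have h4 : gr φ x = 0 := by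
      unfold gr
      rw [h3]
      ext i
      simp
    rw [h4]
    simp
  unfold En
  exact setIntegral_le_integral (hc2.integrable_of_hasCompactSupport hs)
    (Filter.Eventually.of_forall fun x => sq_nonneg _)

theorem En_nonneg {n : ℕ} (φ : E n → ℝ) : 0 ≤ En φ := integral_nonneg fun _ => sq_nonneg _

theorem TENTi' : TENTi := by
  intro hSTAR hBZ hENE n hn β δ ε m D ψ hδ hε hD hvol hm hψ
  obtain ⟨hDb, hDo, hDc⟩ := hD
  obtain ⟨hψ1, hψ2, hψ3⟩ := hψ
  obtain ⟨x₀, hx₀⟩ := hDc.nonempty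
  obtain ⟨M₀, hM₀⟩ := hψ2.exists_bound_of_continuous hψ1.continuous
  obtain ⟨M, hM0, hM⟩ : ∃ M : ℝ, 0 ≤ M ∧ ∀ x, |ψ x| ≤ M :=
    ⟨max M₀ 0, le_max_right _ _, fun x => (hM₀ x).trans (le_max_left _ _)⟩
  -- the centres
  obtain ⟨t₀, _, ht₀f, ht₀⟩ := finite_cover_balls_of_compact (s := tsupport ψ) hψ2 (e := δ / 4)
    (by positivity)
  obtain ⟨F, hF0, hF⟩ : ∃ F : Finset (E n), F.Nonempty ∧ ∀ y ∈ tsupport ψ, ∃ p ∈ F,
      dist y p < δ / 4 := by
    classical
    refine ⟨insert x₀ ht₀f.toFinset, Finset.insert_nonempty _ _, fun y hy => ?_⟩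
    obtain ⟨p, hp, hyp⟩ := mem_iUnion₂.1 (ht₀ hy)
    exact ⟨p, Finset.mem_insert_of_mem (ht₀f.mem_toFinset.2 hp), hyp⟩
  obtain ⟨Γ, hΓ⟩ : ∃ Γ, Γ = Pool.Agent.N266.TI.star x₀ F := ⟨_, rfl⟩
  have hFΓ : ∀ p ∈ F, p ∈ Γ := by
    intro p hp
    rw [hΓ]
    exact mem_iUnion₂.2 ⟨p, hp, right_mem_segment ℝ x₀ p⟩
  have hΓ0 : Γ.Nonempty := by
    obtain ⟨p, hp⟩ := hF0
    exact ⟨p, hFΓ p hp⟩
  -- parameters
  obtain ⟨b, hb⟩ : ∃ b, b = 1 + M := ⟨_, rfl⟩
  have hb0 : 0 < b := by rw [hb]; linarith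
  obtain ⟨t, ht⟩ : ∃ t, t = ε / (2 * (En ψ + 1)) := ⟨_, rfl⟩
  have hEψ := En_nonneg ψ
  have ht0 : 0 < t := by rw [ht]; positivity
  have htE : t * En ψ ≤ ε / 2 := by
    rw [ht, div_mul_eq_mul_div, div_le_div_iff₀ (by positivity) (by norm_num)]
    nlinarith
  obtain ⟨ε', hε'⟩ : ∃ ε', ε' = ε / (2 * ((1 + 1 / t) * b ^ 2)) := ⟨_, rfl⟩
  have hε'0 : 0 < ε' := by rw [hε']; positivity
  have hε'2 : (1 + 1 / t) * b ^ 2 * ε' = ε / 2 := by
    rw [hε']
    have : (1 + 1 / t) * b ^ 2 ≠ 0 := by positivity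
    field_simp
  obtain ⟨s, χ, hs0, _, hχ1, hχ2, hχ3, hχ4, hχ5, hχ6⟩ := hSTAR n hn x₀ F hF0 (δ / 4) ε'
    (by positivity) hε'0
  rw [← hΓ] at hχ4 hχ5
  -- the domain
  obtain ⟨D1, hD1⟩ : ∃ D1, D1 = D ∪ thickening s Γ := ⟨_, rfl⟩
  have hD1c : IsConnected D1 := by
    rw [hD1, hΓ]
    exact conn D hDc x₀ hx₀ F s hs0
  have hD1o : IsOpen D1 := by
    rw [hD1]
    exact hDo.union isOpen_thickening
  have hΓb : Bornology.IsBounded Γ := by
    rw [hΓ]
    unfold Pool.Agent.N266.TI.star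
    refine (Bornology.isBounded_biUnion (Finset.finite_toSet F)).2 fun p _ => ?_
    rw [segment_eq_image_lineMap]
    exact (isCompact_Icc.image (AffineMap.lineMap_continuous)).isBounded
  have hD1b : Bornology.IsBounded D1 := by
    rw [hD1]
    exact hDb.union hΓb.thickening
  have hv1 : volume D1 ≠ ⊤ := hD1b.measure_lt_top.ne
  obtain ⟨m1, hm1⟩ : ∃ m1, m1 = (volume D1).toReal := ⟨_, rfl⟩
  have hvD1 : volume D1 = ENNReal.ofReal m1 := by rw [hm1, ENNReal.ofReal_toReal hv1]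
  have hmm1 : m ≤ m1 := by
    have h1 : volume D ≤ volume D1 := measure_mono (by rw [hD1]; exact subset_union_left)
    rw [hvol, hvD1] at h1
    have h2 : 0 ≤ m1 := by rw [hm1]; exact ENNReal.toReal_nonneg
    exact (ENNReal.ofReal_le_ofReal_iff h2).1 h1
  have hm10 : 0 < m1 := by linarith
  obtain ⟨l, hl⟩ : ∃ l, l = (m / m1) ^ ((n : ℝ)⁻¹) := ⟨_, rfl⟩
  have hl0 : 0 < l := by rw [hl]; positivity
  have hl1 : l ≤ 1 := by
    rw [hl]
    exact Real.rpow_le_one (by positivity) ((div_le_one hm10).2 hmm1) (by positivity)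
  have hln : l ^ n = m / m1 := by
    rw [hl, Real.rpow_inv_natCast_pow (by positivity) (by omega)]
  obtain ⟨D', hD'⟩ : ∃ D' : Set (E n), D' = l • D1 := ⟨_, rfl⟩
  have hD'b : Bornology.IsBounded D' := by rw [hD']; exact hD1b.smul₀ l
  have hD'o : IsOpen D' := by rw [hD']; exact hD1o.smul₀ hl0.ne'
  have hD'c : IsConnected D' := by
    rw [hD', ← image_smul]
    exact hD1c.image _ (continuous_const_smul l).continuousOn
  have hvD' : volume D' = ENNReal.ofReal m := by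
    rw [hD', Measure.addHaar_smul, finrank_euclideanSpace_fin, hln, hvD1,
      abs_of_pos (by positivity), ← ENNReal.ofReal_mul (by positivity), div_mul_cancel₀ _ hm10.ne']
  refine ⟨D', ⟨hD'b, hD'o, hD'c⟩, hvD', ?_⟩
  -- the test function
  obtain ⟨φ, hφ⟩ : ∃ φ : E n → ℝ, φ = fun x => ψ x + b * χ x := ⟨_, rfl⟩
  have hφ1 : ContDiff ℝ 1 φ := by
    rw [hφ]
    exact hψ1.add (contDiff_const.mul hχ1)
  have hφ2 : HasCompactSupport φ := by
    rw [hφ]
    exact hψ2.add (hχ2.mul_left)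
  obtain ⟨φ', hφ'⟩ : ∃ φ' : E n → ℝ, φ' = fun x => φ (l⁻¹ • x) := ⟨_, rfl⟩
  have hφ'1 : ContDiff ℝ 1 φ' := by
    rw [hφ']
    exact hφ1.comp (contDiff_const_smul l⁻¹)
  have hφ'2 : HasCompactSupport φ' := by
    rw [hφ']
    exact hφ2.comp_homeomorph (Homeomorph.smulOfNeZero l⁻¹ (inv_ne_zero hl0.ne'))
  have hφge : ∀ y ∈ D1, 1 ≤ φ y := by
    intro y hy
    rw [hφ]
    show 1 ≤ ψ y + b * χ y
    rw [hD1] at hy
    rcases hy with hy | hy
    · have h1 := hψ3 y (subset_closure hy)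
      have h2 : 0 ≤ b * χ y := mul_nonneg hb0.le (hχ3 y)
      linarith
    · have h1 : infDist y Γ ≤ s := by
        have := (mem_thickening_iff_infEDist_lt).1 hy
        unfold infDist
        exact ENNReal.toReal_le_of_le_ofReal hs0.le this.le
      have h2 := hχ4 y h1
      have h3 := (abs_le.1 (hM y)).1
      have h4 : b * 1 ≤ b * χ y := mul_le_mul_of_nonneg_left h2 hb0.le
      linarith
  have hφ'3 : ∀ x ∈ closure D', 1 ≤ φ' x := by
    have hcl : IsClosed {x | 1 ≤ φ' x} := isClosed_le continuous_const hφ'1.continuous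
    intro x hx
    refine closure_minimal (fun z hz => ?_) hcl hx
    rw [hD'] at hz
    obtain ⟨y, hy, rfl⟩ := hz
    show 1 ≤ φ' (l • y)
    rw [hφ']
    show 1 ≤ φ (l⁻¹ • l • y)
    rw [smul_smul, inv_mul_cancel₀ hl0.ne', one_smul]
    exact hφge y hy
  -- the support
  have hsup : tsupport φ' ⊆ D' + ball (0 : E n) δ := by
    have hcl : IsClosed {x : E n | infDist (l⁻¹ • x) Γ ≤ δ / 4} :=
      isClosed_le ((continuous_infDist_pt Γ).comp (continuous_const_smul l⁻¹)) continuous_const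
    have h1 : Function.support φ' ⊆ {x : E n | infDist (l⁻¹ • x) Γ ≤ δ / 4} := by
      intro x hx
      by_contra hcon
      have h2 : δ / 4 < infDist (l⁻¹ • x) Γ := not_le.1 hcon
      apply hx
      rw [hφ', hφ]
      show ψ (l⁻¹ • x) + b * χ (l⁻¹ • x) = 0
      rw [hχ5 _ h2.le, mul_zero, add_zero]
      by_contra h3
      obtain ⟨p, hp, hyp⟩ := hF (l⁻¹ • x) (subset_tsupport _ h3)
      have h4 := infDist_le_dist_of_mem (x := l⁻¹ • x) (hFΓ p hp)
      linarith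
    intro x hx
    have h2 : infDist (l⁻¹ • x) Γ ≤ δ / 4 := (closure_minimal h1 hcl) hx
    obtain ⟨g, hg, hgx⟩ := (infDist_lt_iff (r := δ / 2) hΓ0).1 (by linarith :
      infDist (l⁻¹ • x) Γ < δ / 2)
    refine ⟨l • g, ?_, x - l • g, ?_, by simp⟩
    · rw [hD', hD1]
      exact smul_mem_smul_set (Or.inr (self_subset_thickening hs0 _ hg))
    · rw [mem_ball_zero_iff]
      have h3 : x - l • g = l • (l⁻¹ • x - g) := by
        rw [smul_sub, smul_smul, mul_inv_cancel₀ hl0.ne', one_smul]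
      rw [h3, norm_smul, Real.norm_eq_abs, abs_of_pos hl0, ← dist_eq_norm]
      have h4 : l * dist (l⁻¹ • x) g ≤ 1 * dist (l⁻¹ • x) g :=
        mul_le_mul_of_nonneg_right hl1 dist_nonneg
      linarith
  have hw : HasCompactSupport (fun x => φ' x ^ 2) := by
    have : (fun x => φ' x ^ 2) = (fun z : ℝ => z ^ 2) ∘ φ' := rfl
    rw [this]
    exact hφ'2.comp_left (by norm_num)
  have hws : tsupport (fun x => φ' x ^ 2) ⊆ D' + ball (0 : E n) δ := by
    refine subset_trans (closure_mono ?_) hsup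
    intro x hx h0
    apply hx
    show φ' x ^ 2 = 0
    rw [h0]
    norm_num
  have hbz := hBZ n (D' + ball (0 : E n) δ) (fun x => φ' x ^ 2) (hD'o.add_right) hw hws
  have hen1 := (hENE n ψ χ b t l hψ1 hψ2 hχ1 hχ2 ht0 hl0 (by omega) hl1).1
  have hen2 := (hENE n φ χ b t l hφ1 hφ2 hχ1 hχ2 ht0 hl0 (by omega) hl1).2
  rw [← hφ] at hen1
  rw [← hφ'] at hen2
  have hfin : En φ' ≤ En ψ + ε := by
    have h1 : (1 + 1 / t) * b ^ 2 * En χ ≤ (1 + 1 / t) * b ^ 2 * ε' :=
      mul_le_mul_of_nonneg_left hχ6 (by positivity)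
    nlinarith
  calc disp β δ D' ≤ energy β (D' + ball (0 : E n) δ) φ' :=
        iInf₂_le φ' ⟨hφ'1, hφ'2, hφ'3⟩
    _ = ENNReal.ofReal (∫ x in D' + ball (0 : E n) δ, ‖gr φ' x‖ ^ 2) := by
        unfold energy
        rw [hbz, mul_zero, add_zero]
    _ ≤ ENNReal.ofReal (En ψ + ε) :=
        ENNReal.ofReal_le_ofReal ((part_le φ' hφ'1 hφ'2 _).trans hfin)

end Pool.Agent.N519.TI
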